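import Pool.Agent.H18.PN.Stgt
import Pool.Agent.H99.D2.Fzh

/-!
# The first and the last state, the slope of the place smaller

`base_recu`, `base_recd`: the states of the orders larger than the slopes. `fin_recd`: the first jet
of the place from a state with `x < 1`. `st_trd`: the states relative to a near path with more digits.
-/

set_option autoImplicit false

namespace Pool.PN18

open Finset Real MvPolynomial
open Pool.Agent.H49.Ent Pool.Agent.H32.Dense Pool.STK Pool.KA Pool.KSAT Pool.K2S Pool.PB Pool.GEN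
open Pool.S6C Pool.RCD Pool.LA91 Pool.OWN68 Pool.AJW Pool.AJX Pool.CHT Pool.PKG

section

variable {m : ℕ} {S : PCl m} {al : ℝ} {g₀ : ℝ → ℝ} {P : List (Fin m) × Fin m → ℝ → ℝ → ℝ}
    {θ : ℝ} {P₂ : ℕ → List (Fin m) × Fin m → ℝ → ℝ → ℝ} {θ₂ Eb e₂ : ℕ → ℝ}
    {c : ℕ → Fin m} {Pt : ℝ → ℝ → ℝ} {rt : ℝ → ℝ} {h K₀ g : ℝ} {L T : ℕ → ℝ → ℝ → ℝ}
    {Sl : ℕ → ℝ} {κ : ℕ → Kg} {G : Set ℝ} {S₀ N : ℕ} {A V : ℕ → ℝ} {S₂ N' : ℕ} {V' : ℕ → ℝ}
    {K' ε q t : ℝ}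

/-- **The first state**, the place. -/
theorem base_recu (K r : ℕ) {a τ : ℝ} (ha : 0 < a) (hτ1 : 1 ≤ τ)
    (Rc : RecG S al g₀ P θ P₂ θ₂ Eb e₂ c Pt rt h K₀ g L T Sl κ G S₀ N A V S₂ N' V' K' ε q t)
    (hrm : r + 1 < m) (hκ : ∀ l < r, κ l = .one) (hSa : Sl r = a)
    (hch : ChG S c (r + 1) (fun l x => L l x x) G) {X φ kf ℓ e' : ℝ}
    (hφ : 0 < φ) (hφ8 : φ ≤ 1 / 8) (hφX : 32 * (r + 1) * φ ≤ X)
    (hX : 2 * ((a + K + 8) * τ) + 8 ≤ X) (hkf : 3 ^ r * X ≤ kf) (hℓ : kf + τ ≤ ℓ)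
    (hℓK : ℓ ≤ K') (hK1 : τ + 3 ^ r * X + 2 ≤ K') (hεφ : 2 * ε ≤ φ)
    (hε : 0 ≤ ε) (htG : t ∈ G) (hnG : ∀ k ≤ r, t + jfV r (-τ) X k * q ∈ G) {pf : ℕ → ℝ}
    {Nf : ℕ → ℕ → ℝ} (hpf : ∀ l < r, L l t t - φ * q ≤ pf l) (hNf : NfP r L X q t τ Nf)
    (he' : 0 < e') (he1 : e' ≤ φ / 8) {η : ℝ} (hη : 0 < η) (he2 : e' ≤ η / 16) :
    StU S c r K L q t pf Nf (e' * q) a τ η := by
  have hq := Rc.q0
  have ht0 := Rc.t0
  have ht1 := Rc.t1
  have htm := Rc.tmc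
  have hK0 : (0 : ℝ) ≤ K := Nat.cast_nonneg K
  have hτ0 : 0 < τ := by linarith only [hτ1]
  have haτ0 : 0 < a * τ := mul_pos ha hτ0
  have hKτ0 : 0 ≤ K * τ := mul_nonneg hK0 hτ0.le
  have hX' : 2 * (a * τ + K * τ + 8 * τ) + 8 ≤ X := by
    have e1 : 2 * ((a + K + 8) * τ) + 8 = 2 * (a * τ + K * τ + 8 * τ) + 8 := by
      ring
    rw [← e1]
    exact hX
  have hX0 : 0 < X := by linarith only [hX', haτ0, hKτ0, hτ0]
  have h3X : 0 < 3 ^ r * X := by positivity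
  have Un : JfU r K (-τ) X φ ℓ kf :=
    { vv0 := by linarith only [hτ0]
      φ0 := hφ
      XK := by
        have e1 : 2 * (((K : ℝ) + 6) * - -τ) = 2 * (K * τ + 6 * τ) := by ring
        rw [e1]
        linarith only [hX', haτ0, hτ0]
      φX := hφX
      kfX := hkf
      lamk := by linarith only [hℓ] }
  have Jn := Rc.jf hκ (by omega) Un htG hnG (by linarith only [hK1]) hℓK hεφ
  have hK'0 : 0 < K' := by linarith only [hK1, hτ0, h3X]
  have hvG : t + -τ * q ∈ G := by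
    have h1 := hnG 0 (Nat.zero_le r)
    rwa [jfV_zero] at h1
  have hnear : ∀ x : ℝ, 0 ≤ x → x ≤ K' → |t + -x * q - t| ≤ K' * q := fun x h1 h2 => by
    rw [add_sub_cancel_left, neg_mul, abs_neg, abs_mul, abs_of_nonneg h1, abs_of_pos hq]
    exact mul_le_mul_of_nonneg_right h2 hq.le
  have hdv := abs_le.1 (Rc.dL r (by omega) _ (hnear τ hτ0.le (by linarith only [hK1, h3X])))
  rw [hSa] at hdv
  have ev : ∀ z : ℝ, t + -z * q - t = -(z * q) := fun z => by ring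
  rw [ev] at hdv
  obtain ⟨v, hv⟩ : ∃ v, v = t + -τ * q := ⟨_, rfl⟩
  have hv' : v = t - τ * q := by rw [hv]; ring
  have hτq : 0 < τ * q := mul_pos hτ0 hq
  have hKq : (τ + 3 ^ r * X + 2) * q ≤ K' * q := mul_le_mul_of_nonneg_right hK1 hq.le
  have h3Xq : 0 < 3 ^ r * X * q := mul_pos h3X hq
  have hvn0 : 2 * q ≤ v := by
    rw [hv']
    linarith only [hKq, ht0, h3Xq, hq]
  have ht1' : t < 1 := by linarith only [ht1, mul_pos hK'0 hq]
  unfold NfP at hNf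
  rw [← hv] at hdv hvG Jn hNf
  obtain ⟨Lt, hLt⟩ : ∃ Lt, Lt = L r t t := ⟨_, rfl⟩
  obtain ⟨Lv, hLv⟩ : ∃ Lv, Lv = L r v v := ⟨_, rfl⟩
  rw [← hLt, ← hLv] at hdv
  have hpr : ∀ z w : ℝ, z * -(w * q) = -(z * w * q) := fun z w => by ring
  rw [hpr] at hdv
  have hεq : 0 ≤ ε * q := mul_nonneg hε hq.le
  have hεφq : 2 * ε * q ≤ φ * q := mul_le_mul_of_nonneg_right hεφ hq.le
  have hφq : 0 < φ * q := mul_pos hφ hq
  have hφq8 : φ * q ≤ 1 / 8 * q := mul_le_mul_of_nonneg_right hφ8 hq.le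
  have hXq : (2 * (a * τ + K * τ + 8 * τ) + 8) * q ≤ X * q :=
    mul_le_mul_of_nonneg_right hX' hq.le
  have hKτq : 0 ≤ K * τ * q := mul_nonneg hKτ0 hq.le
  have haτq : 0 < a * τ * q := mul_pos (mul_pos ha hτ0) hq
  have he : 0 < e' * q := mul_pos he' hq
  have he1q : e' * q ≤ φ / 8 * q := mul_le_mul_of_nonneg_right he1 hq.le
  have he2q : e' * q ≤ η / 16 * q := mul_le_mul_of_nonneg_right he2 hq.le
  have hηq0 : 0 < η * q := mul_pos hη hq
  have hA := Jn.near_n htm hch (pf := pf) (Nf := Nf) hpf hNf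
  obtain ⟨uv, rv, hrv, hcv⟩ := hch.ch v hvG
  have hLvt : Lt - a * τ * q - ε * q ≤ min Lv Lt :=
    le_min (by linarith only [hdv.1]) (by linarith only [haτq, hεq])
  intro j hj hj1 haj
  have hjK : (j : ℝ) * (τ * q) ≤ K * τ * q + 2 * τ * q := by
    have h1 : (j : ℝ) ≤ K + 2 := by exact_mod_cast hj
    have h2 := mul_le_mul_of_nonneg_right h1 hτq.le
    linarith only [h2]
  have hjv : (j : ℝ) * v = j * t - j * (τ * q) := by rw [hv']; ring
  refine (Jn.tr htm hch hA (k := c r) (j := j) (w₁ := v) (w₂ := t) (p₁ := L r v v)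
    (p₂ := L r t t) (N₁ := L r t t - j * t + ((j - a) * τ - 1) * q) (η := η / 2 * q)
    (h := η / 2 * q) (by linarith only [hv', hτq]) le_rfl le_rfl ?_ he ?_ ?_
    (by linarith only [hηq0]) (exs_jet (hrv r (Nat.lt_succ_self r))
      (hcv.att r (Nat.zero_le _) (Nat.lt_succ_self r)))
    (F1.of0 htm ((few0_jq htm (by linarith only [hvn0, hq])
      (by linarith only [hv', hτq, ht1']) ?_ (fun J F => ptr F J) (vg t) (fun _ F => F.T)
      (h := η / 2 * q) (by linarith only [hηq0])).mono (by linarith only [he2q])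
      le_rfl))).mono le_rfl (by linarith only [])
  · show L r t t - j * t + ((j - a) * τ - 1) * q + j * t + 3 * (φ * q) + (t - v) ≤
      min (L r v v) (L r t t) + X * q
    rw [← hLt, ← hLv]
    linarith only [hLvt, hXq, hjK, hKτq, haτq, hv', hτq, hφq8, hεφq, hq]
  · show e' * q ≤ φ * q / 8
    linarith only [he1q]
  · show e' * q ≤ φ * q / 8
    linarith only [he1q]
  · show L r t t - j * t + ((j - a) * τ - 1) * q + j * v ≤ L r v v
    rw [← hLt, ← hLv]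
    linarith only [hjv, hdv.1, hεφq, hφq8, hq]

/-- **The first state**, the label `d J F`. -/
theorem base_recd (K r : ℕ) {b τ : ℝ} (htm : TmC S 6) (hq : 0 < q) (hq1 : q ≤ 1) {vn : ℝ}
    (hvn0 : 0 ≤ vn) (hvn1 : vn < 1) (hvn : vn + τ * q ≤ t)
    {d : ∀ (J : ℕ) (F : Fam m J), LbD F} {D : ℕ} {En Rn Pn e' : ℝ}
    (hd : LbF S d ((range (r + 1)).image c) (c (r + 1)) D En Rn vn (Pn - e' * q))
    (hPn : L (r + 1) t t - b * (t - vn) - q ≤ Pn) {pf : ℕ → ℝ} {Nf : ℕ → ℕ → ℝ}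
    (he' : 0 < e') {η : ℝ} (hη : 0 < η) (he2 : e' ≤ η / 16) :
    StD S c r K L q t d vn pf Nf (e' * q) b τ η := by
  have hηq0 : 0 < η * q := mul_pos hη hq
  have he2q : e' * q ≤ η / 16 * q := mul_le_mul_of_nonneg_right he2 hq.le
  intro j hj hj1 hbj
  have h1 : (j - b) * (τ * q) ≤ (j - b) * (t - vn) :=
    mul_le_mul_of_nonneg_left (by linarith only [hvn]) (by linarith only [hbj])
  exact fd_of_jet hd (F1.of0 htm ((few0_jq htm hvn0 hvn1 (by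
    linarith only [h1, hPn]) (fun J F => ptr F J) (vg t)
    (fun _ F => F.T) hηq0).mono (by linarith only [he2q, hηq0]) le_rfl))

/-- **The first jet of the place** from a state with `a + 1 ≤ (1 - x) τ`. -/
theorem fin_recd (K r : ℕ) {a x τ : ℝ} (ha : 0 < a) (hτ1 : 1 ≤ τ)
    (hx1 : x < 1) (hxτ : a + 1 ≤ (1 - x) * τ)
    (Rc : RecG S al g₀ P θ P₂ θ₂ Eb e₂ c Pt rt h K₀ g L T Sl κ G S₀ N A V S₂ N' V' K' ε q t)
    (hrm : r + 1 < m) (hκ : ∀ l < r, κ l = .one)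
    (hch : ChG S c (r + 1) (fun l x => L l x x) G) {X φ kf ℓ e' : ℝ}
    (hφ : 0 < φ) (hφ8 : φ ≤ 1 / 8) (hφX : 32 * (r + 1) * φ ≤ X)
    (hX : 2 * ((a + K + 8) * τ) + 8 ≤ X) (hXa : a + τ + 2 ≤ X) (hkf : 3 ^ r * X ≤ kf)
    (hℓ : kf + τ ≤ ℓ) (hℓK : ℓ ≤ K') (hK1 : τ + 3 ^ r * X + 2 ≤ K') (hεφ : 2 * ε ≤ φ)
    (htG : t ∈ G) (hnG : ∀ k ≤ r, t + jfV r (-τ) X k * q ∈ G) {pf : ℕ → ℝ} {pr : ℝ}
    {Nf : ℕ → ℕ → ℝ} (hpf : ∀ l < r, L l t t - φ * q ≤ pf l) (hpr : L r t t - φ * q ≤ pr)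
    (hNf : NfP r L X q t τ Nf)
    (he' : 0 < e') (he1 : e' ≤ φ / 8) {η dd : ℝ} (hη : η < dd)
    (SU : StU S c r K L q t pf Nf (e' * q) x τ η) :
    F1 S (fun J F => ptr F J) (vg t) (fun _ F => F.T)
      (qJets m c 0 r 1 (fun _ _ => t) (fun l _ => pf l) Nf)
      (qJet m ((range r).image c) (c r) 1 t pr (L r t t + (a - 1) * q - t)) (e' * q) (dd * q) := by
  have hq := Rc.q0
  have htm := Rc.tmc
  have hτ0 : 0 < τ := by linarith only [hτ1]
  have hK0 : (0 : ℝ) ≤ K := Nat.cast_nonneg K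
  have haτ0 : 0 < a * τ := mul_pos ha hτ0
  have hKτ0 : 0 ≤ K * τ := mul_nonneg hK0 hτ0.le
  have hX' : 2 * (a * τ + K * τ + 8 * τ) + 8 ≤ X := by
    have e1 : 2 * ((a + K + 8) * τ) + 8 = 2 * (a * τ + K * τ + 8 * τ) + 8 := by
      ring
    rw [← e1]
    exact hX
  have hX0 : 0 < X := by linarith only [hX', haτ0, hKτ0, hτ0]
  have h3X : 0 < 3 ^ r * X := by positivity
  have Un : JfU r K (-τ) X φ ℓ kf :=
    { vv0 := by linarith only [hτ0]
      φ0 := hφ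
      XK := by
        have e1 : 2 * (((K : ℝ) + 6) * - -τ) = 2 * (K * τ + 6 * τ) := by ring
        rw [e1]
        linarith only [hX', haτ0, hτ0]
      φX := hφX
      kfX := hkf
      lamk := by linarith only [hℓ] }
  have Jn := Rc.jf hκ (by omega) Un htG hnG (by linarith only [hK1]) hℓK hεφ
  have hφq : 0 < φ * q := mul_pos hφ hq
  have hφq8 : φ * q ≤ 1 / 8 * q := mul_le_mul_of_nonneg_right hφ8 hq.le
  have he : 0 < e' * q := mul_pos he' hq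
  have he1q : e' * q ≤ φ / 8 * q := mul_le_mul_of_nonneg_right he1 hq.le
  have hτq : 0 < τ * q := mul_pos hτ0 hq
  have hXaq : (a + τ + 2) * q ≤ X * q := mul_le_mul_of_nonneg_right hXa hq.le
  have hηq : (dd - η) * q > 0 := mul_pos (by linarith only [hη]) hq
  have hxτq := mul_le_mul_of_nonneg_right hxτ hq.le
  have hA := Jn.near_n htm hch (pf := pf) (Nf := Nf) hpf hNf
  obtain ⟨ut, rt', hrt, hct⟩ := hch.ch t htG
  have hvn' : t + -τ * q = t - τ * q := by ring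
  refine (Jn.tr htm hch hA (k := c r) (j := 1) (w₁ := t) (w₂ := t) (p₁ := L r t t) (p₂ := pr)
    (N₁ := L r t t - (1 : ℕ) * t + (((1 : ℕ) - x) * τ - 1) * q) (η := η * q)
    (h := (dd - η) * q) le_rfl le_rfl ?_ ?_ he ?_ ?_ hηq (exs_jet (hrt r (Nat.lt_succ_self r))
      (hct.att r (Nat.zero_le _) (Nat.lt_succ_self r))) ?_).mono le_rfl
      (by linarith only [])
  · push_cast
    linarith only [hxτq, hq]
  · show L r t t + (a - 1) * q - t + (1 : ℕ) * t + 3 * (φ * q) + (t - (t + -τ * q)) ≤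
      min (L r t t) pr + X * q
    have h1 : L r t t - φ * q ≤ min (L r t t) pr := le_min (by linarith only [hφq]) hpr
    push_cast
    rw [hvn']
    linarith only [h1, hXaq, hφq8, hq]
  · show e' * q ≤ φ * q / 8
    linarith only [he1q]
  · show e' * q ≤ φ * q / 8
    linarith only [he1q]
  · have h1 := SU 1 (by omega) le_rfl (by push_cast; exact hx1)
    exact h1

/-- **More digits of the near path**, the two states. -/
theorem st_trd {r K : ℕ}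
    (Rc : RecG S al g₀ P θ P₂ θ₂ Eb e₂ c Pt rt h K₀ g L T Sl κ G S₀ N A V S₂ N' V' K' ε q t)
    (hch : ChG S c (r + 1) (fun l x => L l x x) G) (htG : t ∈ G) {X Tn φ : ℝ} (hTn : 0 < Tn)
    (hφ : 0 < φ) (hφ8 : φ ≤ 1 / 8) (hX : Tn + 3 ≤ X) (hK : 3 ^ r * X + 3 ≤ K') {pf : ℕ → ℝ}
    (hpf : ∀ l < r, L l t t - φ * q ≤ pf l ∧ pf l ≤ L l t t) {Nt Nv : ℕ → ℕ → ℝ}
    (h1 : ∀ l < r, ∀ j ≤ 1, Nt l j ≤ Nv l j)
    (h2 : ∀ l < r, ∀ j ≤ 1, L l t t + (aX r X l - Tn - 1) * q ≤ Nv l j + (j : ℕ) * t)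
    (h3 : ∀ l < r, ∀ j ≤ 1, Nt l j + (j : ℕ) * t ≤ L l t t + (aX r X l + 1) * q)
    {d : ∀ (J : ℕ) (F : Fam m J), LbD F} {vn : ℝ}
    {e' x y τ η η' : ℝ} (he : 0 < e') (heφ : e' ≤ φ / 8) (hη : η < η')
    (HU : StU S c r K L q t pf Nt (e' * q) x τ η)
    (HN : StD S c r K L q t d vn pf Nt (e' * q) y τ η) :
    StU S c r K L q t pf Nv (e' * q) x τ η' ∧ StD S c r K L q t d vn pf Nv (e' * q) y τ η' := by
  have hq := Rc.q0
  have he1 : e' * q ≤ φ * q / 8 := by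
    have := mul_le_mul_of_nonneg_right heφ hq.le
    linarith only [this]
  have hh : 0 < (η' - η) * q := mul_pos (by linarith only [hη]) hq
  exact ⟨fun j a b c' => (f1_tr Rc hch htG hTn hφ hφ8 hX hK hpf h1 h2 h3 (mul_pos he hq) he1 hh
      (HU j a b c')).mono le_rfl (by linarith only []),
    fun j a b c' => (f1_tr Rc hch htG hTn hφ hφ8 hX hK hpf h1 h2 h3 (mul_pos he hq) he1 hh
      (HN j a b c')).mono le_rfl (by linarith only [])⟩

end

end Pool.PN18
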